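import Pool.Agent.Y990.OA.Stm

set_option autoImplicit false

open MeasureTheory Set

/-!
Part LEV of the project OA (nearest-neighbour percolation on `Z^d` at criticality): the main
inequality at one level.
-/

namespace Pool.Agent.Y968.OA

open Pool.Agent.W783.PC (pm DepOn Inc)
open Pool.Agent.W424.PC (cfgOf)
open Pool.Agent.Y990.PL (Expl)
open Pool.Agent.Y990.CB
open Pool.Agent.Y990.OA
open H974 (Ex Ok ind Pr)

noncomputable section

variable {d : ℕ}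

/-- The weight of a set touching the frame. -/
def gw (L : ℕ) (X : Set (Z d)) : ℝ := (1 : ℝ) / (max 1 (X ∩ Fr 0 L).ncard : ℕ)

lemma gw_bd (L : ℕ) (X : Set (Z d)) : 0 ≤ gw L X ∧ gw L X ≤ 1 := by
  unfold gw
  have h : (1 : ℝ) ≤ ((max 1 (X ∩ Fr 0 L).ncard : ℕ) : ℝ) := by
    exact_mod_cast le_max_left 1 _
  constructor
  · positivity
  · rw [div_le_one (by linarith)]
    exact h

lemma Fn_sub (M : Mod d) (L : ℕ) (A A' : Finset M.ι) :
    Fn M L A - Fn M L A' = ∑ u ∈ Ff (0 : Z d) L,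
      (gw L (cl M (cfgOf A) (Bo 0 L) u) - gw L (cl M (cfgOf A') (Bo 0 L) u)) := by
  unfold Fn Nf gw
  rw [Finset.sum_sub_distrib]

lemma Ff_Bf {L : ℕ} {u : Z d} (h : u ∈ Ff (0 : Z d) L) : u ∈ Bf (0 : Z d) L := by
  classical
  unfold Ff at h
  rw [Finset.mem_filter] at h
  exact h.1

open scoped Classical in
/-- The abstract influence inequality for the clusters of the frame. -/
lemma Xi_le (h1 : S_ibp2) (M : Mod d) (p : unitInterval) (L m : ℕ) (hm : m ≤ L) (K : ℝ)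
    (hK : 1 ≤ K) :
    Xi M p L m ≤ K * Ex (fun _ : M.ι => (p : ℝ)) (Tf M L) (fun A => ∑ u ∈ Ff (0 : Z d) L,
        gw L (cl M (cfgOf A) (Bo 0 L) u) *
          √(Vt (Tf M m) (tc M) (cl M (cfgOf A) (Bo 0 L) u))) +
      ((Ff (0 : Z d) L).card : ℝ) * (((Tf M m).card : ℝ) ^ 2 * Real.exp (-(K ^ 2 / 2))) := by
  have hok : Ok (fun _ : M.ι => (p : ℝ)) := fun _ => ⟨p.2.1, p.2.2⟩
  have hE : ∀ u ∈ Ff (0 : Z d) L, Expl (Tf M L) (fun _ : M.ι => (p : ℝ)) (4 * d)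
      (fun A => cl M (cfgOf A) (Bo 0 L) u) (tc M) := by
    intro u hu
    have := Pool.Agent.Y210.CB.expl d M p (Bf 0 L) u (Tf M L) (Ff_Bf hu)
      (by rw [coe_Bf]; exact coe_Tf M L)
    rw [coe_Bf] at this
    exact this
  have hT : Tf M m ⊆ Tf M L := by
    rw [← Finset.coe_subset, coe_Tf, coe_Tf]
    exact In_mono M (Bo_mono 0 hm)
  have h := h1 M.ι (Z d) (Tf M L) (Tf M m) (fun _ => (p : ℝ)) (4 * d) (Ff 0 L)
    (fun u A => cl M (cfgOf A) (Bo 0 L) u) (tc M) (fun _ X => gw L X) hok hE hT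
    (fun _ X => gw_bd L X) K hK
  unfold Xi
  simp only [Fn_sub]
  exact h

/-- The number of vertices of a set in the box, as a real number. -/
def vr (m : ℕ) (X : Set (Z d)) : ℝ := ((X ∩ Bo 0 (m + 1)).ncard : ℝ)

lemma vr_nonneg (m : ℕ) (X : Set (Z d)) : 0 ≤ vr m X := by
  unfold vr
  positivity

/-- Large numbers. -/
lemma root_le (hd : 2 ≤ d) {t v : ℝ} (ht : 1 ≤ t) (hv : t ≤ v) :
    √v ≤ t ^ (-(((d : ℝ) - 2) / (2 * d))) * v ^ (((d : ℝ) - 1) / d) := by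
  have hd' : (2 : ℝ) ≤ d := by exact_mod_cast hd
  have hd0 : (d : ℝ) ≠ 0 := by linarith
  have hv0 : 0 < v := by linarith
  have e : (1 / 2 : ℝ) = -(((d : ℝ) - 2) / (2 * d)) + ((d : ℝ) - 1) / d := by
    field_simp
    ring
  rw [Real.sqrt_eq_rpow, e, Real.rpow_add hv0]
  refine mul_le_mul_of_nonneg_right ?_ (Real.rpow_nonneg hv0.le _)
  refine Real.rpow_le_rpow_of_nonpos (by linarith) hv ?_
  rw [neg_nonpos]
  exact div_nonneg (by linarith) (by linarith)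

open scoped Classical in
/-- Splitting of the sum of square roots. -/
lemma split_le (hd : 2 ≤ d) (m : ℕ) (t : ℝ) (ht : 1 ≤ t) (F : Finset (Set (Z d))) :
    ∑ X ∈ F, √(vr m X) ≤ Tn m t F + t ^ (-(((d : ℝ) - 2) / (2 * d))) *
      ∑ X ∈ F, (vr m X) ^ (((d : ℝ) - 1) / d) := by
  unfold Tn
  rw [Finset.mul_sum, ← Finset.sum_add_distrib]
  refine Finset.sum_le_sum fun X _ => ?_
  have h0 := vr_nonneg m X
  have h1 : 0 ≤ t ^ (-(((d : ℝ) - 2) / (2 * d))) * (vr m X) ^ (((d : ℝ) - 1) / d) :=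
    mul_nonneg (Real.rpow_nonneg (by linarith) _) (Real.rpow_nonneg h0 _)
  by_cases h : ((X ∩ Bo 0 (m + 1)).ncard : ℝ) < t
  · rw [if_pos h]
    unfold vr at h1 ⊢
    linarith
  · rw [if_neg h, zero_add]
    push Not at h
    exact root_le hd ht h

lemma card_ind {α : Type} (B K : Finset α) (h : K ⊆ B) :
    (K.card : ℝ) = ∑ z ∈ B, ind (z ∈ K) := by
  rw [← Finset.sum_subset h]
  · rw [Finset.sum_congr rfl (fun z hz => H974.ind_of hz)]
    simp
  · intro z _ hz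
    exact H974.ind_not_of hz

lemma Kv_dep (M : Mod d) (L : ℕ) (z : Z d) (k : ℕ) :
    DepOn (Kv M L z k) ((Tf M L : Finset M.ι) : Set M.ι) := by
  rw [coe_Tf]
  intro ω ω' h
  unfold Kv Am
  simp only [mem_ofPred_eq]
  rw [graph_congr h]

lemma Ho_dep (M : Mod d) (L : ℕ) (z : Z d) (k : ℕ) :
    DepOn (Ho M L z k) ((Tf M L : Finset M.ι) : Set M.ι) := by
  rw [coe_Tf]
  intro ω ω' h
  unfold Ho Lk
  simp only [mem_ofPred_eq]
  rw [graph_congr h]

open scoped Classical in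
/-- Expected numbers of exceptional places. -/
lemma Ex_card (M : Mod d) (p : unitInterval) (L r : ℕ) (D : Finset M.ι → Finset (Z d))
    (V : Z d → Set (M.ι → Bool)) (hV : ∀ z, DepOn (V z) ((Tf M L : Finset M.ι) : Set M.ι))
    (hsub : ∀ A, D A ⊆ Bf (0 : Z d) r)
    (h : ∀ A, ∀ z ∈ Bf (0 : Z d) r, z ∈ D A ↔ cfgOf A ∈ V z) :
    Ex (fun _ : M.ι => (p : ℝ)) (Tf M L) (fun A => ((D A).card : ℝ)) =
      ∑ z ∈ Bf (0 : Z d) r, (mu M p).real (V z) := by
  have e1 : (fun A => ((D A).card : ℝ)) = fun A => ∑ z ∈ Bf (0 : Z d) r, ind (cfgOf A ∈ V z) := by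
    funext A
    rw [card_ind (Bf (0 : Z d) r) (D A) (hsub A)]
    exact Finset.sum_congr rfl fun z hz => H974.ind_congr (h A z hz)
  rw [e1, H974.Ex_sum]
  refine Finset.sum_congr rfl fun z _ => ?_
  unfold mu
  rw [Pool.Agent.Y288.PL.pm_eq_Pr (fun _ => p) (hV z)]
  rfl

theorem lev (h1 : S_ibp2) (h2 : S_terr) (h3 : S_al1) (h4 : S_al2) (h5 : S_al3)
    (h6 : S_al4) : S_lev := by
  classical
  intro d hd
  obtain ⟨C, hC, hterr⟩ := h2 d hd
  have hd' : (2 : ℝ) ≤ d := by exact_mod_cast hd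
  have hs1 : 1 ≤ √(4 * (d : ℝ)) := by
    rw [Real.one_le_sqrt]
    linarith
  have hs0 : 0 ≤ √(4 * (d : ℝ)) := by linarith
  refine ⟨√(4 * (d : ℝ)) * C, by nlinarith, ?_⟩
  intro M p k m L t K hL ht hK
  have hp0 : (0 : ℝ) ≤ p := p.2.1
  have hp1 : (p : ℝ) ≤ 1 := p.2.2
  have hok : Ok (fun _ : M.ι => (p : ℝ)) := fun _ => ⟨hp0, hp1⟩
  have hX := Xi_le h1 M p L m (by omega) K hK
  set e : ℝ := t ^ (-(((d : ℝ) - 2) / (2 * d))) with he
  have he0 : 0 ≤ e := Real.rpow_nonneg (by linarith) _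
  set Q : ℝ := ((2 * k + 3 : ℕ) : ℝ) ^ d with hQ
  set W : ℝ := ((2 * m + 3 : ℕ) : ℝ) ^ (d - 1) with hW
  -- pointwise bound
  have hpt : ∀ A : Finset M.ι, ∑ u ∈ Ff (0 : Z d) L,
        gw L (cl M (cfgOf A) (Bo 0 L) u) *
          √(Vt (Tf M m) (tc M) (cl M (cfgOf A) (Bo 0 L) u)) ≤
      √(4 * (d : ℝ)) * (Tn m t (Al M L (cfgOf A)) + e * (C * (Q *
        ((Kc k (m + 1) (Al M L (cfgOf A))).card : ℝ) +
        ((Hc k (m + 1) (Al M L (cfgOf A))).card : ℝ) + W))) := by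
    intro A
    have a1 : ∑ u ∈ Ff (0 : Z d) L, gw L (cl M (cfgOf A) (Bo 0 L) u) *
          √(Vt (Tf M m) (tc M) (cl M (cfgOf A) (Bo 0 L) u)) ≤
        ∑ u ∈ Ff (0 : Z d) L, gw L (cl M (cfgOf A) (Bo 0 L) u) *
          (√(4 * (d : ℝ)) * √(vr m (cl M (cfgOf A) (Bo 0 L) u))) := by
      refine Finset.sum_le_sum fun u _ => ?_
      refine mul_le_mul_of_nonneg_left ?_ (gw_bd L _).1
      rw [← Real.sqrt_mul (by positivity)]
      exact Real.sqrt_le_sqrt (h5 d M m _)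
    have a2 : ∑ u ∈ Ff (0 : Z d) L, gw L (cl M (cfgOf A) (Bo 0 L) u) *
          (√(4 * (d : ℝ)) * √(vr m (cl M (cfgOf A) (Bo 0 L) u))) =
        ∑ X ∈ Al M L (cfgOf A), √(4 * (d : ℝ)) * √(vr m X) :=
      h4 d M L (cfgOf A) (fun X => √(4 * (d : ℝ)) * √(vr m X))
    rw [a2, ← Finset.mul_sum] at a1
    refine a1.trans (mul_le_mul_of_nonneg_left ?_ hs0)
    refine (split_le hd m t ht _).trans ?_
    have a3 := hterr k (m + 1) (Al M L (cfgOf A)) (h3 d M L (cfgOf A)).1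
    have e2 : (2 * (m + 1) + 1 : ℕ) = (2 * m + 3 : ℕ) := by ring
    rw [e2] at a3
    have a4 := mul_le_mul_of_nonneg_left a3 he0
    unfold vr
    linarith
  -- expectation
  have hKc := Ex_card M p L (m + 1) (fun A => Kc k (m + 1) (Al M L (cfgOf A)))
    (fun z => Kv M L z (k + 1)) (fun z => Kv_dep M L z (k + 1))
    (fun A => Finset.filter_subset _ _)
    (fun A z hz => (h6 d M L k (m + 1) (cfgOf A) z (by omega) hz (by omega)).1)
  have hHc := Ex_card M p L (m + 1) (fun A => Hc k (m + 1) (Al M L (cfgOf A)))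
    (fun z => Ho M L z k) (fun z => Ho_dep M L z k)
    (fun A => Finset.filter_subset _ _)
    (fun A z hz => (h6 d M L k (m + 1) (cfgOf A) z (by omega) hz (by omega)).2)
  have hEx := H974.Ex_mono hok (S := Tf M L) (fun A _ => hpt A)
  have hEq : Ex (fun _ : M.ι => (p : ℝ)) (Tf M L) (fun A =>
      √(4 * (d : ℝ)) * (Tn m t (Al M L (cfgOf A)) + e * (C * (Q *
        ((Kc k (m + 1) (Al M L (cfgOf A))).card : ℝ) +
        ((Hc k (m + 1) (Al M L (cfgOf A))).card : ℝ) + W)))) =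
      √(4 * (d : ℝ)) * (Th M p L m t + e * (C * (Q *
        ∑ z ∈ Bf (0 : Z d) (m + 1), (mu M p).real (Kv M L z (k + 1)) +
        ∑ z ∈ Bf (0 : Z d) (m + 1), (mu M p).real (Ho M L z k) + W))) := by
    rw [H974.Ex_mul_left, H974.Ex_add, H974.Ex_mul_left, H974.Ex_mul_left, H974.Ex_add,
      H974.Ex_add, H974.Ex_mul_left, H974.Ex_const, hKc, hHc]
    rfl
  rw [hEq] at hEx
  have hTh : 0 ≤ Th M p L m t := by
    unfold Th
    refine H974.Ex_nonneg hok fun A _ => ?_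
    unfold Tn
    refine Finset.sum_nonneg fun X _ => ?_
    split_ifs
    · exact Real.sqrt_nonneg _
    · exact le_rfl
  have hfin : √(4 * (d : ℝ)) * (Th M p L m t + e * (C * (Q *
        ∑ z ∈ Bf (0 : Z d) (m + 1), (mu M p).real (Kv M L z (k + 1)) +
        ∑ z ∈ Bf (0 : Z d) (m + 1), (mu M p).real (Ho M L z k) + W))) ≤
      √(4 * (d : ℝ)) * C * (Th M p L m t + e * (Q *
        ∑ z ∈ Bf (0 : Z d) (m + 1), (mu M p).real (Kv M L z (k + 1)) +
        ∑ z ∈ Bf (0 : Z d) (m + 1), (mu M p).real (Ho M L z k) + W)) := by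
    have : 0 ≤ √(4 * (d : ℝ)) * ((C - 1) * Th M p L m t) :=
      mul_nonneg hs0 (mul_nonneg (by linarith) hTh)
    nlinarith
  have hK0 : 0 ≤ K := by linarith
  have h7 := mul_le_mul_of_nonneg_left (hEx.trans hfin) hK0
  refine hX.trans ?_
  refine add_le_add ?_ le_rfl
  refine h7.trans (le_of_eq ?_)
  ring

end

end Pool.Agent.Y968.OA
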